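import Pool.Agent.N870.EC.Stm2

/-!
# EC/DEN6: the numbers of the residues for `Z/2 x Z/6` (helper31)
-/

set_option autoImplicit false

namespace Pool.Agent.N31.EC

open Finset

open scoped Classical

open Pool.Agent.N870.EC (M6 N6)

theorem transfer (p : ℕ) [Fact p.Prime] (h3 : p ≠ 3) (P : ℕ × ℕ → Prop) [DecidablePred P]
    (Q : ZMod p × ZMod p → Prop) [DecidablePred Q]
    (h : ∀ t : ℕ × ℕ, P t ↔ Q ((t.1 : ZMod p), 3 * (t.2 : ZMod p))) :
    ((range p ×ˢ range p).filter P).card = (univ.filter Q).card := by
  have hp : p.Prime := Fact.out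
  have hm0 : (3 : ZMod p) ≠ 0 := by
    intro h0
    have h1 : ((3 : ℕ) : ZMod p) = 0 := by exact_mod_cast h0
    rw [ZMod.natCast_eq_zero_iff, Nat.prime_dvd_prime_iff_eq hp Nat.prime_three] at h1
    exact h3 h1
  have hval : ∀ a b : ℕ, a ∈ range p → b ∈ range p → (a : ZMod p) = b → a = b := by
    intro a b ha hb hab
    rw [mem_range] at ha hb
    have h1 := congrArg ZMod.val hab
    rwa [ZMod.val_cast_of_lt ha, ZMod.val_cast_of_lt hb] at h1
  refine Finset.card_bij (fun t _ => ((t.1 : ZMod p), 3 * (t.2 : ZMod p))) ?_ ?_ ?_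
  · intro t ht
    rw [mem_filter] at ht ⊢
    exact ⟨mem_univ _, (h t).1 ht.2⟩
  · rintro ⟨a, b⟩ h1 ⟨a', b'⟩ h2 h3
    rw [mem_filter, mem_product] at h1 h2
    rw [Prod.mk.injEq] at h3
    obtain ⟨h3, h4⟩ := h3
    rw [hval a a' h1.1.1 h2.1.1 h3, hval b b' h1.1.2 h2.1.2 (mul_left_cancel₀ hm0 h4)]
  · rintro ⟨a, b⟩ h1
    rw [mem_filter] at h1
    have h2 : (((a.val : ℕ) : ZMod p), 3 * (((b / 3 : ZMod p).val : ℕ) : ZMod p)) = (a, b) := by
      rw [Prod.mk.injEq, ZMod.natCast_zmod_val, ZMod.natCast_zmod_val, mul_div_cancel₀ _ hm0]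
      exact ⟨rfl, rfl⟩
    refine ⟨(a.val, (b / 3 : ZMod p).val), ?_, h2⟩
    rw [mem_filter, mem_product, mem_range, mem_range]
    refine ⟨⟨ZMod.val_lt _, ZMod.val_lt _⟩, (h _).2 ?_⟩
    show Q _
    rw [h2]
    exact h1.2

theorem jac (p : ℕ) [Fact p.Prime] (a : ℤ) :
    jacobiSym a p = quadraticChar (ZMod p) (a : ZMod p) := by
  rw [← jacobiSym.legendreSym.to_jacobiSym]
  rfl

/-- the symbol `(-3 / p)` -/
theorem chi3 (p : ℕ) [Fact p.Prime] (hp : 5 ≤ p) :
    quadraticChar (ZMod p) (-3 : ZMod p) = 1 ↔ p % 3 = 1 := by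
  have hpp : p.Prime := Fact.out
  have hodd : p % 2 = 1 := by
    rcases hpp.eq_two_or_odd with h | h
    · omega
    · exact h
  have h0 : quadraticChar (ZMod p) (-3 : ZMod p) = jacobiSym (-3) p := by
    rw [jac]
    push_cast
    rfl
  have h1 : jacobiSym (-3) p = jacobiSym p 3 := by
    have e : (-3 : ℤ) = (-1) * ((3 : ℕ) : ℤ) := by norm_num
    rw [e, jacobiSym.mul_left, jacobiSym.at_neg_one (Nat.odd_iff.2 hodd)]
    have h4 : p % 4 = 1 ∨ p % 4 = 3 := by omega
    rcases h4 with h4 | h4
    · rw [ZMod.χ₄_nat_one_mod_four h4, one_mul,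
        jacobiSym.quadratic_reciprocity_one_mod_four' (by decide) h4]
    · rw [ZMod.χ₄_nat_three_mod_four h4,
        jacobiSym.quadratic_reciprocity_three_mod_four (by norm_num) h4]
      ring
  rw [h0, h1, jacobiSym.mod_left]
  have h3 : ¬ p % 3 = 0 := by
    intro h
    have := (Nat.prime_dvd_prime_iff_eq Nat.prime_three hpp).1 (Nat.dvd_of_mod_eq_zero h)
    omega
  have h5 : p % 3 = 1 ∨ p % 3 = 2 := by omega
  rcases h5 with h5 | h5
  · have e : ((p : ℤ) % ((3 : ℕ) : ℤ)) = 1 := by omega
    rw [e, h5, jacobiSym.one_left]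
    exact ⟨fun _ => rfl, fun _ => rfl⟩
  · have e : ((p : ℤ) % ((3 : ℕ) : ℤ)) = 2 := by omega
    rw [e, h5]
    have h6 : jacobiSym 2 3 = -1 := by norm_num
    rw [h6]
    norm_num

theorem fib (p : ℕ) [Fact p.Prime] (Q : ZMod p × ZMod p → Prop) [DecidablePred Q] (n0 n1 : ℕ)
    (h0 : ((univ : Finset (ZMod p)).filter (fun a => Q (a, 0))).card = n0)
    (h1 : ∀ c : ZMod p, c ≠ 0 → ((univ : Finset (ZMod p)).filter (fun a => Q (a, c))).card = n1) :
    (univ.filter Q).card = n0 + (p - 1) * n1 := by
  have e : (univ.filter Q).card = ∑ c : ZMod p, ((univ : Finset (ZMod p)).filter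
      (fun a => Q (a, c))).card := by
    rw [card_filter, Fintype.sum_prod_type_right]
    refine sum_congr rfl fun c _ => ?_
    rw [card_filter]
  rw [e, ← add_sum_erase univ _ (mem_univ (0 : ZMod p)), h0]
  congr 1
  rw [sum_congr rfl fun c hc => h1 c (ne_of_mem_erase hc), sum_const, card_erase_of_mem (mem_univ _),
    card_univ, ZMod.card, smul_eq_mul]

theorem t_DEN6 : Pool.Agent.N870.EC.S_DEN6 := by
  intro p hpp hp
  have : Fact p.Prime := ⟨hpp⟩
  have hne : ∀ q : ℕ, q.Prime → q ≤ 3 → ((q : ℕ) : ZMod p) ≠ 0 := by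
    intro q hq hq3 h
    rw [ZMod.natCast_eq_zero_iff, Nat.prime_dvd_prime_iff_eq hpp hq] at h
    omega
  have h2 : (2 : ZMod p) ≠ 0 := by exact_mod_cast hne 2 Nat.prime_two (by norm_num)
  have h3 : (3 : ZMod p) ≠ 0 := by exact_mod_cast hne 3 Nat.prime_three (by norm_num)
  constructor
  · rw [transfer p (by omega) _ (fun t => (t.1 - t.2) * (t.1 + t.2) ^ 3 = 0 ∧
      quadraticChar (ZMod p) (-(t.1 ^ 3 * (t.1 + 2 * t.2))) = 1)]
    · rw [fib p _ 0 (1 + if p % 3 = 1 then 1 else 0), zero_add]
      · rw [card_eq_zero]
        ext a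
        simp only [mem_filter, mem_univ, true_and, sub_zero, add_zero, mul_zero, notMem_empty,
          iff_false, not_and]
        intro h
        have ha : a = 0 := by
          rcases mul_eq_zero.1 h with h | h
          · exact h
          · exact pow_eq_zero_iff (by norm_num) |>.1 h
        subst ha
        simp
      · intro c hc
        have hc4 : ∀ u : ZMod p, quadraticChar (ZMod p) (u * c ^ 4) = quadraticChar (ZMod p) u := by
          intro u
          have : u * c ^ 4 = u * (c ^ 2) ^ 2 := by ring
          rw [this, map_mul, quadraticChar_sq_one' (pow_ne_zero 2 hc), mul_one]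
        have hcc : c ≠ -c := by
          intro h
          have : 2 * c = 0 := by linear_combination h
          rcases mul_eq_zero.1 this with h | h
          · exact h2 h
          · exact hc h
        have key : ∀ a : ZMod p, ((a - c) * (a + c) ^ 3 = 0 ∧
            quadraticChar (ZMod p) (-(a ^ 3 * (a + 2 * c))) = 1) ↔ a = -c ∨ (a = c ∧ p % 3 = 1) := by
          intro a
          constructor
          · rintro ⟨h, h'⟩
            rcases mul_eq_zero.1 h with h | h
            · right
              have ha : a = c := sub_eq_zero.1 h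
              refine ⟨ha, ?_⟩
              subst ha
              have e : -(a ^ 3 * (a + 2 * a)) = (-3) * a ^ 4 := by ring
              rw [e, hc4] at h'
              exact (chi3 p hp).1 h'
            · left
              have := pow_eq_zero_iff (by norm_num) |>.1 h
              linear_combination this
          · rintro (rfl | ⟨rfl, h⟩)
            · refine ⟨by ring, ?_⟩
              have e : -((-c) ^ 3 * (-c + 2 * c)) = 1 * c ^ 4 := by ring
              rw [e, hc4, map_one]
            · refine ⟨by ring, ?_⟩
              have e : -(a ^ 3 * (a + 2 * a)) = (-3) * a ^ 4 := by ring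
              rw [e, hc4]
              exact (chi3 p hp).2 h
        by_cases h : p % 3 = 1
        · rw [if_pos h]
          have e : (univ : Finset (ZMod p)).filter (fun a => (a - c) * (a + c) ^ 3 = 0 ∧
              quadraticChar (ZMod p) (-(a ^ 3 * (a + 2 * c))) = 1) = {-c, c} := by
            ext a
            simp only [mem_filter, mem_univ, true_and, mem_insert, mem_singleton]
            rw [key a]
            simp [h]
          simp only
          rw [e, card_pair hcc.symm]
        · rw [if_neg h]
          have e : (univ : Finset (ZMod p)).filter (fun a => (a - c) * (a + c) ^ 3 = 0 ∧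
              quadraticChar (ZMod p) (-(a ^ 3 * (a + 2 * c))) = 1) = {-c} := by
            ext a
            simp only [mem_filter, mem_univ, true_and, mem_singleton]
            rw [key a]
            simp [h]
          simp only
          rw [e, card_singleton]
    · rintro ⟨a, b⟩
      simp only
      rw [← ZMod.intCast_zmod_eq_zero_iff_dvd, jac]
      unfold M6 N6
      push_cast
      refine and_congr ?_ ?_
      · constructor
        · intro h
          linear_combination -h
        · intro h
          linear_combination -h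
      · have e : -((a : ZMod p) ^ 3 * ((a : ZMod p) + 6 * (b : ZMod p))) =
            -((a : ZMod p) ^ 3 * ((a : ZMod p) + 2 * (3 * (b : ZMod p)))) := by ring
        rw [e]
  · rw [transfer p (by omega) _ (fun t => t.1 = 0 ∨ t.1 + 2 * t.2 = 0 ∨ t.2 = 0 ∨
      t.2 + 2 * t.1 = 0)]
    · rw [fib p _ p 3]
      · omega
      · rw [filter_true_of_mem, card_univ, ZMod.card]
        intro a _
        exact Or.inr (Or.inr (Or.inl rfl))
      · intro c hc
        rw [card_eq_three]
        have k1 : -(2 * c) ≠ 0 := neg_ne_zero.2 (mul_ne_zero h2 hc)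
        have k2 : -(c / 2) ≠ 0 := neg_ne_zero.2 (div_ne_zero hc h2)
        refine ⟨0, -(2 * c), -(c / 2), k1.symm, k2.symm, ?_, ?_⟩
        · intro h
          have h5 : 2 * c = c / 2 := neg_injective h
          rw [eq_div_iff h2] at h5
          have h4 : 3 * c = 0 := by linear_combination h5
          rcases mul_eq_zero.1 h4 with h | h
          · exact h3 h
          · exact hc h
        · ext a
          simp only [mem_filter, mem_univ, true_and, mem_insert, mem_singleton]
          constructor
          · rintro (h | h | h | h)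
            · exact Or.inl h
            · exact Or.inr (Or.inl (by linear_combination h))
            · exact absurd h hc
            · refine Or.inr (Or.inr ?_)
              field_simp
              linear_combination h
          · rintro (h | h | h)
            · exact Or.inl h
            · exact Or.inr (Or.inl (by rw [h]; ring))
            · refine Or.inr (Or.inr (Or.inr ?_))
              rw [h]
              field_simp
              ring
    · rintro ⟨a, b⟩
      simp only
      rw [← ZMod.intCast_zmod_eq_zero_iff_dvd]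
      unfold M6 N6
      push_cast
      rw [mul_eq_zero, neg_eq_zero, neg_eq_zero, mul_eq_zero, mul_eq_zero,
        pow_eq_zero_iff (by norm_num), pow_eq_zero_iff (by norm_num)]
      have e : (a : ZMod p) + 6 * (b : ZMod p) = (a : ZMod p) + 2 * (3 * (b : ZMod p)) := by ring
      rw [e]
      tauto

end Pool.Agent.N31.EC
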